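import Pool.Agent.H80.JD.Basic

/-!
# Module MID: points of a cluster at every intermediate distance
-/

set_option autoImplicit false

namespace Pool.Agent.H54.JD

open Finset Filter Topology Pool.Agent.H80.JD

theorem mid : T_MID := by
  intro n S x y M hxy hM
  have h := same_ind (S := S) (x := x)
    (fun z => (∃ z', Same S x z' ∧ hammingDist x z' = M) ∨ hammingDist x z < M) ?_ ?_ hxy
  · rcases h with h | h
    · exact h
    · omega
  · by_cases hM0 : M = 0
    · left
      exact ⟨x, same_refl hxy.1, by rw [hammingDist_self, hM0]⟩
    · right
      rw [hammingDist_self]; omega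
  · intro y z h1 h2 h3
    rcases h3 with h3 | h3
    · exact Or.inl h3
    · have h4 := hammingDist_triangle x y z
      have h5 := h2.2.2
      by_cases h6 : hammingDist x z = M
      · left
        exact ⟨z, h1.step h2, h6⟩
      · right; omega

end Pool.Agent.H54.JD
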